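import Mathlib
import Pool.Agent.helper58.LE.GenDefs
import Pool.Agent.helper70.FI4.SpecK
import Pool.Agent.helper59.FI4.SpecP4
import Pool.Agent.helper59.FI4.SpecI
import Pool.Agent.helper83.FI.SpecR
import Pool.Agent.helper1.FI3.SpecH

/-!
# MP_baa4d7_al, project L5 (part of LE): the congruence modulo `p ^ c` without heights, and the induction with `E = Ec p c D` instead of `D`

Page: `/team-store/LEX_helper37.md`, sections 2 and 3 (refereed). NEW compared with FI4 / LE: no condition on the case `R = O_p(G)` regular (no block NIL), no condition on commutators,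
no heights in the congruence. OUTPUT: `DV5`, `MN5`, `FS5`, `FD5` (abstract in a hereditary hypothesis `H` of helper58's `GenDefs`, and in the bound `BDH p M H (p ^ c)`).

RULES FOR ROWS. File `Pool/Agent/<seat>/L5/XXX.lean` with

  import Pool.Agent.helper37.L5.Spec
  set_option autoImplicit false
  namespace Pool.Agent.L5
  open Pool.Agent.helper58.DC Pool.Agent.DI Pool.Agent.GR Pool.Agent.OB Pool.Agent.DR Pool.Agent.FI Pool.Agent.FI3 Pool.Agent.FI4 Pool.Agent.FI4I Pool.Agent.LE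
  theorem XXX (hYYY : YYY_stmt) ... : XXX_stmt := ...
  end Pool.Agent.L5

auxiliary lemmas prefixed `XXX_`, no sorry, no double quotes in the file, no `convert`, no `congr!`. The rows named in the docstring are hypotheses; all rows of the earlier specs (FI, FI3, FI4, DR, DI, GR, OB: all proved)
may be added as further hypotheses (no circles). Ready lemmas: `helper59/FI/Base`, `helper58/FI/DefsC` (`mem_cjS`, `cjF_apply`), `helper12/FI/Defs` (`cz_conj`, `cc_funMap`). `open Pool.Agent.LE` gives `HP`, `Her`, `BDH`, `HRN_stmt`, ...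
-/

set_option autoImplicit false

namespace Pool.Agent.L5

open Pool.Agent.helper58.DC Pool.Agent.DI Pool.Agent.GR Pool.Agent.OB Pool.Agent.DR Pool.Agent.FI Pool.Agent.FI3 Pool.Agent.FI4 Pool.Agent.FI4I Pool.Agent.LE

section

variable {G : Type} [Group G]

/-- The subgroup `E_c(D)` (`D` abelian): the elements `x` with `x ^ p = 1` which are `p ^ (c - 1)`-th powers in `D`. -/
def Ec (p c : ℕ) (D : Subgroup G) : Subgroup G :=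
  Subgroup.closure {x : G | x ^ p = 1 ∧ ∃ y ∈ D, y ^ p ^ (c - 1) = x}

theorem mem_Ec {p c : ℕ} {D : Subgroup G} (hD : ∀ a ∈ D, ∀ b ∈ D, a * b = b * a) {x : G} :
    x ∈ Ec p c D ↔ x ^ p = 1 ∧ ∃ y ∈ D, y ^ p ^ (c - 1) = x := by
  constructor
  · intro h
    refine Subgroup.closure_induction (p := fun x _ => x ^ p = 1 ∧ ∃ y ∈ D, y ^ p ^ (c - 1) = x)
      (fun x hx => hx) ⟨one_pow _, 1, D.one_mem, one_pow _⟩ ?_ ?_ h
    · rintro a b - - ⟨ha, y, hy, rfl⟩ ⟨hb, z, hz, rfl⟩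
      have h0 : Commute y z := hD y hy z hz
      have h1 : Commute (y ^ p ^ (c - 1)) (z ^ p ^ (c - 1)) := h0.pow_pow _ _
      exact ⟨by rw [h1.mul_pow, ha, hb, mul_one], y * z, D.mul_mem hy hz, h0.mul_pow _⟩
    · rintro a - ⟨ha, y, hy, rfl⟩
      exact ⟨by rw [inv_pow, ha, inv_one], y⁻¹, D.inv_mem hy, inv_pow _ _⟩
  · intro h
    exact Subgroup.subset_closure h

theorem Ec_le {p c : ℕ} {D : Subgroup G} : Ec p c D ≤ D := by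
  refine (Subgroup.closure_le _).2 ?_
  rintro x ⟨-, y, hy, rfl⟩
  exact D.pow_mem hy _

/-- The number `l(b)` of irreducible Brauer characters of the block `b(θ)^K` of `K` (`θ` a character of a subgroup of `K`). -/
noncomputable def Le (p : ℕ) (M : Ideal (integralClosure ℤ ℂ)) (K : Subgroup G) (θ : G → ℂ) : ℂ :=
  ∑ᶠ ζ ∈ Bl M K θ, EE p K ζ ζ

end

/-! ## 1. The congruence -/

/-- **NZV** (short: COPY the first half of NZ3, `Pool/Agent/helper27/FI3/NZ3.lean`; from HTU, TRW, QID, RR1). Every character of `B` is nonzero on every section `u ∈ D`. Proof: `P = ⊥`, `cz ⊥ = ⊤` (ready lemma, grep `cz_bot`), `K = Cz ⊤ u` (`= Cz (cz ⊥) u`).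
As in NZ3: `i` (QID), `w` (HTU), `j` (`QI.loc` for `Cz (cz ⊥) u`), `ev ψ i (u w) ≠ 0` and `ev ψ i (u w) = ev ψ j (u w)` (RR1). Suppose that `ψ (u * v) = 0` for all `p`-regular `v` commuting with `u`. Let `f g = ψ (u * g)`:
`ev ψ j (u * w) = ev f j w` (`u * w * x = u * (w * x)`), `f` is invariant under `K` (`u` commutes with `K`, `ψ` is a class function), and TRW for `H = K`, `ψ := f`, `ψ' := fun _ => 0` gives `ev f j w = ev 0 j w = 0`. `ψ ∈ Blk M χ ⊤` gives `ψ ∈ Bl M (cz ⊥) θ` (TPR, `rt.ind`). -/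
def NZV_stmt : Prop :=
  ∀ (p : ℕ) (M : Ideal (integralClosure ℤ ℂ)), Setup p M → ∀ (G : Type) [Group G] [Finite G]
    (D : Subgroup G) (x : G) (θ χ : G → ℂ), Rt p M D x θ χ → ∀ ψ ∈ Blk M χ (⊤ : Subgroup G), ∀ u ∈ D,
    ∃ v : G, PReg p v ∧ u * v = v * u ∧ ψ (u * v) ≠ 0

/-- **CNV** (short to medium; from BR2, CNTL, SYL, TPR, B2). A `p`-element `y` with `χ (y v) ≠ 0`, `v` `p`-regular in `C(y)`, is conjugate into the defect group. Proof: BR2 for `H = ⊤`, `v' = v`: `Sf (Blk M χ ⊤) (y v) (y v) = Sf (Blk M χ (Cz ⊤ y)) v v`. The left side is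
the sum of `ψ (y v) * ψ (y v)⁻¹ = ‖ψ (y v)‖ ^ 2` (CHC or `IrrOn_inv`-type lemma) over `ψ ∈ Blk M χ ⊤` (finite, B2; contains `χ`), so it is `≠ 0`, and `Blk M χ (Cz ⊤ y)` is not empty. Let `η` be in it; `Cz ⊤ y = ⊤ ⊓ cz (zpowers y)` (SYL). CNTL for
`L = ⊤`, `R = zpowers y` (a `p`-group), `ψ = χ` (`SB M ⊤ η χ`: TPR). -/
def CNV_stmt : Prop :=
  ∀ (p : ℕ) (M : Ideal (integralClosure ℤ ℂ)), Setup p M → ∀ (G : Type) [Group G] [Finite G],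
    ∀ χ ∈ Irr G, ∀ (D : Subgroup G) (x : G), DefL p M ⊤ χ D x → ∀ y v : G, PEl p y → PReg p v → y * v = v * y →
    χ (y * v) ≠ 0 → ∃ g : G, g * y * g⁻¹ ∈ D

/-- **KDG5** (short; COPY `DVK_dg` of `Pool/Agent/helper58/LE/DVK.lean` up to `hD'c`, then new end; from NZV, CNV and the rows there). The defect group `D'` of a block `B'` of the quotient dominated by `B` is abelian and contains a conjugate of `π z`. Proof of the end: `ψ = χ' ∘ π ∈ Blk M χ ⊤` (`hBl` there).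
NZV for `u = z`: `v` with `χ' (π z * π v) ≠ 0`. `π z` is a `p`-element, `π v` is `p`-regular (KPR (2) of SpecK or `orderOf_map_dvd`), they commute. CNV for `Gb` and `hD'`: `y = g * π z * g⁻¹ ∈ D'`. `y ^ p ^ (c - 1) = 1` would give `π (z ^ p ^ (c - 1)) = 1`, `z ^ p ^ (c - 1) ∈ R`. `CentreOut p c D'` with `y`
(`D'` is commutative; end of `DVK_dg`). -/
def KDG5_stmt : Prop :=
  ∀ (p : ℕ) (M : Ideal (integralClosure ℤ ℂ)), Setup p M → ∀ (G Gb : Type) [Group G] [Finite G]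
    [Group Gb] [Finite Gb] (D : Subgroup G) (x : G) (θ χ : G → ℂ), Rt p M D x θ χ → ∀ c : ℕ, 1 ≤ c →
    ∀ (R : Subgroup G) (π : G →* Gb), Qn p R π → R ≤ D → ∀ z ∈ D, z ^ p ^ (c - 1) ∉ R →
    ∀ χ' ∈ Irr Gb, Induces M (fun g => χ' (π g)) χ →
    ∃ D' : Subgroup Gb, Pool.Agent.MAP.DefectGroup p M χ' D' ∧ Pool.Agent.MAPW.CentreOut p c D'

/-- **DV5** (short; COPY `DVK_gen`, `DVK` of `Pool/Agent/helper58/LE/DVK.lean` with KDG5 instead of `DVK_dg_stmt`; `DVK_dv_stmt` may be taken as a hypothesis). The congruence modulo `p ^ c`. -/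
def DV5_stmt : Prop :=
  ∀ (p : ℕ) (M : Ideal (integralClosure ℤ ℂ)), Setup p M → ∀ (G : Type) [Group G] [Finite G]
    (D : Subgroup G) (x : G) (θ χ : G → ℂ), Rt p M D x θ χ → ∀ c : ℕ, 1 ≤ c →
    ∀ R : Subgroup G, IsOp p (⊤ : Subgroup G) R → R ≤ D → ∀ z ∈ D, z ^ p ^ (c - 1) ∉ R →
    ∃ m : ℤ, ∑ᶠ C ∈ {C : Finset (Subgroup G) | NCh p ⊤ R C},
      (-1 : ℂ) ^ (C.card + 1) * ((Nat.card (nrm C) : ℂ) * LL p M χ (nrm C)) =
        (p : ℂ) ^ c * (Nat.card G : ℂ) * m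

/-! ## 2. The numbers `Le` -/

/-- **LEL** (short; from TPR). `LL` of the whole group. Proof: `Blk M χ ⊤ = Bl M ⊤ θ`: for `ψ ∈ IrrOn ⊤`, `Induces M ψ χ ↔ SB M ⊤ ψ χ` (TPR), and `SB M ⊤ θ χ` (`rt.ind`, TPR), `SB.symm`, `SB.trans`. -/
def LEL_stmt : Prop :=
  ∀ (p : ℕ) (M : Ideal (integralClosure ℤ ℂ)), Setup p M → ∀ (G : Type) [Group G] [Finite G]
    (D : Subgroup G) (x : G) (θ χ : G → ℂ), Rt p M D x θ χ →
    Blk M χ (⊤ : Subgroup G) = Bl M ⊤ θ ∧ LL p M χ (⊤ : Subgroup G) = Le p M ⊤ θ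

/-- **LEI** (short; from FEQ, QCJ). Conjugation: `ψ ↦ cjF g ψ` is a bijection from `Bl M H θ` onto `Bl M (cjS g H) (cjF g θ)` (FEQ; inverse `cjF g⁻¹`), `EE` by QCJ (1) (compare LBI, grep `theorem LBI`). -/
def LEI_stmt : Prop :=
  ∀ (p : ℕ) (M : Ideal (integralClosure ℤ ℂ)), Setup p M → ∀ (G : Type) [Group G] [Finite G] (g : G) (H : Subgroup G) (θ : G → ℂ),
    Le p M (cjS g H) (cjF g θ) = Le p M H θ

/-- **TRE** (short to medium; from TR1, TR2, TR4 of SpecI; compare TRL). Transfer to the type `N`. Proof: all functions in `Bl M H θ` and `θ` vanish outside `H ≤ N`; `ψ ↦ rN N ψ` is a bijection from `Bl M H θ` onto `Bl M (H.subgroupOf N) (rN N θ)` (TR1, TR2 (2)), `EE` by TR4. -/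
def TRE_stmt : Prop :=
  ∀ (p : ℕ) (M : Ideal (integralClosure ℤ ℂ)), Setup p M → ∀ (G : Type) [Group G] [Finite G] (N H : Subgroup G), H ≤ N →
    ∀ θ : G → ℂ, (∀ x, x ∉ H → θ x = 0) → Le p M (H.subgroupOf N) (rN N θ) = Le p M H θ

/-- **ECN** (short; pure). The subgroup `Ec`. Proof: `mem_Ec` (for the abelian groups `D`, `D.subgroupOf N`, `cjS g D`). (1) `Subgroup.mem_subgroupOf`. (2) `mem_cjS`, `conj_pow`. (3) `n ∈ nz D`, `x ∈ Ec p c D`, `x = y ^ p ^ (c - 1)`: `n x n⁻¹ = (n y n⁻¹) ^ p ^ (c - 1)`; also for `n⁻¹`.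
(4) take `z ∈ D` with `z ^ p ^ (c - 1) ∉ R`: if `x ∈ Ec p c D`, `x ∉ R` then `x = z ^ p ^ (c - 1)`. (5) if `z ^ p ^ (c - 1) ≠ 1`, `z ∈ D`, let `k` be maximal with `z ^ p ^ k ≠ 1` (`k ≥ c - 1`); `x = z ^ p ^ k = (z ^ p ^ (k - (c - 1))) ^ p ^ (c - 1)`, `x ^ p = 1`. (6) `R` normal: `cz R ≤ nz E` for `E ≤ R`. -/
def ECN_stmt : Prop :=
  ∀ (p c : ℕ), p.Prime → ∀ (G : Type) [Group G] [Finite G] (D : Subgroup G), IsPGroup p D → (∀ a ∈ D, ∀ b ∈ D, a * b = b * a) →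
    (∀ N : Subgroup G, D ≤ N → Ec p c (D.subgroupOf N) = (Ec p c D).subgroupOf N) ∧
    (∀ g : G, Ec p c (cjS g D) = cjS g (Ec p c D)) ∧ nz D ≤ nz (Ec p c D) ∧
    (∀ R : Subgroup G, ¬ Ec p c D ≤ R → ∃ z ∈ D, z ^ p ^ (c - 1) ∉ R) ∧
    ((∃ z ∈ D, z ^ p ^ (c - 1) ≠ 1) → Ec p c D ≠ ⊥) ∧
    (∀ R : Subgroup G, Ec p c D ≤ R → cz R ≤ nz (Ec p c D)) ∧ cz D ≤ nz (Ec p c D)

/-! ## 3. Local blocks and subpairs -/

/-- **DCT5** (short; pure; compare DCT, grep `theorem DCT`). A double coset. The fibres of `(n, t) ↦ n g₀ t` have `|N ⊓ cjS g₀ T|` elements. -/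
def DCT5_stmt : Prop :=
  ∀ (G : Type) [Group G] [Finite G] (T N : Subgroup G) (g₀ : G),
    {g : G | ∃ n ∈ N, ∃ t ∈ T, g = n * g₀ * t}.ncard * Nat.card (N ⊓ cjS g₀ T : Subgroup G) = Nat.card N * Nat.card T

/-- **ACJ5** (medium; from LOA, BKN, FSI, FEQ, CJG, RTN, HRC or CJR, TR2, TR3; compare BKC, CJR: grep `theorem BKC`, `theorem CJR`). The conjugates `(cjS g D, cjF g θ)` of the root over a block `φ` of `N` form one double coset. Proof. Write `D_g = cjS g D`, `θ_g = cjF g θ`.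
EXISTENCE: BKN: `g₁`, `θ₁ ∈ IrrOn (cz D_{g₁})`, `SB M N θ₁ φ`, `Induces M θ₁ χ`. `LoA.con` for `Q = D_{g₁}`: `h` with `cjS h D_{g₁} ≤ D` (so `=`, cardinality), `SB M (cz D) θ (cjF h θ₁)`. `g₀ = h⁻¹`: `D_{g₀} = D_{g₁} ≥ Q`, `SB M (cz D_{g₀}) θ_{g₀} θ₁` (FEQ), so `SB M N θ_{g₀} φ` (FSI (1), `cz D_{g₀} ≤ cz Q ≤ N`).
ONE DOUBLE COSET, `→`: let `Q ≤ D_g`, `SB M N θ_g φ`. `Rt` for `(D_g, θ_g)`, `χ` (CJR) and RTN: `Rt` in the type `N` for `D_g.subgroupOf N`, `rN N θ_g`, `rN N φ`. LOA for it, `con` for the subgroup `D_{g₀}.subgroupOf N` and `ψ = rN N θ_{g₀}` (TR1, TR3; `Induces` by TPR of the type `N`, TR2): `n ∈ N` with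
`cjS n D_{g₀} ≤ D_g`, so `= D_g`, and `SB M (cz D_g) θ_g (cjF n θ_{g₀})` (TR2, TR3). So `t = g⁻¹ n g₀ ∈ nz D`, `SB M (cz D) θ (cjF t θ)` (FEQ), `t ∈ TT M D θ`, `g = n g₀ t⁻¹`.
`←`: `g = n g₀ t`: `D_g = cjS n D_{g₀} ≥ cjS n Q = Q` (`n ∈ N ≤ nz Q`, `t ∈ nz D`), `θ_g = cjF n (cjF g₀ (cjF t θ))`, `SB M (cz D) (cjF t θ) θ`, FEQ, FSI (1), CJG sixth item (`SB M N (cjF n η) η`). -/
def ACJ5_stmt : Prop :=
  ∀ (p : ℕ) (M : Ideal (integralClosure ℤ ℂ)), Setup p M → ∀ (G : Type) [Group G] [Finite G]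
    (D : Subgroup G) (x : G) (θ χ : G → ℂ), Rt p M D x θ χ → ∀ Q N : Subgroup G, Mid p Q N →
    ∀ φ ∈ Blk M χ N, ∃ g₀ : G, (Q ≤ cjS g₀ D ∧ SB M N (cjF g₀ θ) φ) ∧
      ∀ g : G, (Q ≤ cjS g D ∧ SB M N (cjF g θ) φ) ↔ ∃ n ∈ N, ∃ t ∈ TT M D θ, g = n * g₀ * t

/-- **LOC5** (short to medium; from ACJ5, DCT5, FSI, FEQ, BKV, B2). All blocks of `N`. Proof: for `φ ∈ Blk M χ N` the sum of the `|N ⊓ cjS g T|` over the `g` with `Q ≤ cjS g D`, `SB M N (cjF g θ) φ` is `|N| |T|`: ACJ5, DCT5, and `N ⊓ cjS (n g₀ t) T = cjS n (N ⊓ cjS g₀ T)` has the same order. So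
`|T| |N| LL = ∑_φ EE φ φ ∑_{g} |N ⊓ cjS g T|`; exchange the sums: for fixed `g` with `Q ≤ cjS g D` the `φ ∈ Blk M χ N` with `SB M N (cjF g θ) φ` are exactly the elements of `Bl M N (cjF g θ)` (`SB.symm`; `Induces M φ χ` by FSI (2), as `Induces M (cjF g θ) χ`: FEQ, `rt.ind`; `cz (cjS g D) ≤ N`: BKV). -/
def LOC5_stmt : Prop :=
  ∀ (p : ℕ) (M : Ideal (integralClosure ℤ ℂ)), Setup p M → ∀ (G : Type) [Group G] [Finite G]
    (D : Subgroup G) (x : G) (θ χ : G → ℂ), Rt p M D x θ χ → ∀ Q N : Subgroup G, Mid p Q N →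
    (Nat.card (TT M D θ) : ℂ) * ((Nat.card N : ℂ) * LL p M χ N) =
      ∑ᶠ g ∈ {g : G | Q ≤ cjS g D},
        (Nat.card (N ⊓ cjS g (TT M D θ) : Subgroup G) : ℂ) * Le p M N (cjF g θ)

/-- **IHN5** (short to medium: compare IHG, `Pool/Agent/helper58/LE/IHG.lean`; from RTN, HRN, HRC, BKV, EXB, TRE, TR3, ECN, FEQ, FSI). The induction hypothesis. Proof: `D₁ = cjS g D`, `θ₁ = cjF g θ ∈ IrrOn (cz D₁)`, `Induces M θ₁ χ` (FEQ). `D₁ ≤ N`, `cz D₁ ≤ N` (BKV). HRC: `Rt`, `H` for `(D₁, θ₁)`. EXB for `L = N`, `Q = D₁`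
(`N ⊓ cz D₁ = cz D₁`): `φ ∈ IrrOn N`, `SB M N θ₁ φ`. RTN, HRN and the hypothesis in the type `N`: `Le p M ⊤ (rN N θ₁) = Le p M (nz (Ec p c (D₁.subgroupOf N))) (rN N θ₁)`; `⊤ = N.subgroupOf N`, `nz (Ec p c (D₁.subgroupOf N)) = (N ⊓ nz (Ec p c D₁)).subgroupOf N` (ECN (1), TR3, `IHN_inf`); TRE twice
(`θ₁` vanishes outside `cz D₁ ≤ N ⊓ nz (Ec p c D₁)`). -/
def IHN5_stmt : Prop :=
  ∀ (p : ℕ) (M : Ideal (integralClosure ℤ ℂ)), Setup p M → ∀ H : HP, Her p H → ∀ (G : Type) [Group G] [Finite G]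
    (D : Subgroup G) (x : G) (θ χ : G → ℂ), Rt p M D x θ χ → H G D (TT M D θ) → ∀ c : ℕ,
    ∀ Q N : Subgroup G, Mid p Q N →
    (∀ (D' : Subgroup N) (x' : N) (θ' χ' : N → ℂ), Rt p M D' x' θ' χ' → H N D' (TT M D' θ') →
      Le p M (⊤ : Subgroup N) θ' = Le p M (nz (Ec p c D')) θ') →
    ∀ g : G, Q ≤ cjS g D → Le p M N (cjF g θ) = Le p M (N ⊓ nz (Ec p c (cjS g D))) (cjF g θ)

open Classical in
/-- **FTG5** (medium; pure; compare FTG3, grep `theorem FTG3`). Toggle on chains. `E ≤ D`, `E` not `≤ Z`. For a chain `C` of subgroups of the abelian group `D` with smallest term `Z` let `P` be the largest term with `¬ E ≤ P` (exists: `Z`). Let `C' = C \ {P ⊔ E}` if `P ⊔ E ∈ C`, and `C' = insert (P ⊔ E) C` otherwise. `P ⊔ E ≠ P`,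
`P ⊔ E ≤` the next term of `C` (it contains `P` and `E`), so `C'` is a chain, and `P` is again the largest term with `¬ E ≤ P`: `C ↦ C'` is an involution which changes the sign. `T ⊓ nrm C = T ⊓ nrm C'` (`T ≤ nz E`; an element of `T` normalising `P` normalises `P ⊔ E`). The excluded chain `{Z}` has the partner `{Z, Z ⊔ E}`, its term is
`(-1) ^ 3 * f (T ⊓ nz Z ⊓ nz (Z ⊔ E)) = - f T`. (`Finset.sum_involution` on the chains different from `{Z}`, `{Z, Z ⊔ E}`.) -/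
def FTG5_stmt : Prop :=
  ∀ (Γ : Type) [Group Γ] [Finite Γ] (p : ℕ) [Fact p.Prime] (D T Z E : Subgroup Γ), IsPGroup p D → (∀ a ∈ D, ∀ b ∈ D, a * b = b * a) →
    Z ≤ D → E ≤ D → ¬ E ≤ Z → T ≤ nz E → T ≤ nz Z → ∀ f : Subgroup Γ → ℂ,
    ∑ᶠ C ∈ {C : Finset (Subgroup Γ) | PCh p D Z C ∧ C ≠ {Z}}, (-1 : ℂ) ^ (C.card + 1) * f (T ⊓ nrm C) = - f T

/-- **TOG5** (short to medium: compare TOG, grep `theorem TOG`; from FTG5, LEI, ECN, FEQ). The toggle for all conjugates. Proof: exchange the finite sums; fix `g`, `D₁ = cjS g D`, `T₁ = cjS g T`, `E₁ = Ec p c D₁ = cjS g (Ec p c D)` (ECN (2)). The chains `C` with `NCh p ⊤ R C`, `C ≠ {R}`, all of whose terms are `≤ D₁`, are the `C` with `PCh p D₁ R C`, `C ≠ {R}`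
(`D₁` is commutative). FTG5 for `D₁`, `T := nz E₁`, `Z = R` (normal: `R = cjS g R ≤ D₁`, `nz R = ⊤`; `¬ E₁ ≤ R`), `f K = |K ⊓ T₁| * Le p M K (cjF g θ)`: the sum is `- f (nz E₁)`. In the sum below the intersection `nrm C ⊓ T₁` is `(nz E₁ ⊓ nrm C) ⊓ T₁` because `T₁ ≤ nz D₁ ≤ nz E₁` (ECN (3)). `f (nz E₁) = |T₁| Le p M (cjS g (nz E)) (cjF g θ) = |T| Le p M (nz E) θ` (LEI). -/
def TOG5_stmt : Prop :=
  ∀ (p : ℕ) (M : Ideal (integralClosure ℤ ℂ)), Setup p M → ∀ (G : Type) [Group G] [Finite G]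
    (D : Subgroup G) (x : G) (θ χ : G → ℂ), Rt p M D x θ χ → ∀ c : ℕ,
    ∀ R : Subgroup G, IsOp p (⊤ : Subgroup G) R → R ≤ D → ¬ Ec p c D ≤ R →
    ∑ᶠ C ∈ {C : Finset (Subgroup G) | NCh p ⊤ R C ∧ C ≠ {R}}, (-1 : ℂ) ^ (C.card + 1) *
      ∑ᶠ g ∈ {g : G | ∀ Q ∈ C, Q ≤ cjS g D},
        (Nat.card (nrm C ⊓ cjS g (TT M D θ) : Subgroup G) : ℂ) * Le p M (nrm C ⊓ nz (Ec p c (cjS g D))) (cjF g θ) =
      - ((Nat.card G : ℂ) * ((Nat.card (TT M D θ) : ℂ) * Le p M (nz (Ec p c D)) θ))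

/-- **TG5** (short to medium: COPY `TGG`, `Pool/Agent/helper58/LE/TGG.lean`; from TOG5, LOC5, IHN5, FMX3, LEL). The alternating sum of the `LL`. -/
def TG5_stmt : Prop :=
  ∀ (p : ℕ) (M : Ideal (integralClosure ℤ ℂ)), Setup p M → ∀ H : HP, Her p H → ∀ (G : Type) [Group G] [Finite G]
    (D : Subgroup G) (x : G) (θ χ : G → ℂ), Rt p M D x θ χ → H G D (TT M D θ) → ∀ c : ℕ,
    ∀ R : Subgroup G, IsOp p (⊤ : Subgroup G) R → R ≤ D → ¬ Ec p c D ≤ R →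
    (∀ (G' : Type) [Group G'] [Finite G'], Nat.card G' < Nat.card G → ∀ (D' : Subgroup G') (x' : G')
      (θ' χ' : G' → ℂ), Rt p M D' x' θ' χ' → H G' D' (TT M D' θ') →
      Le p M (⊤ : Subgroup G') θ' = Le p M (nz (Ec p c D')) θ') →
    ∑ᶠ C ∈ {C : Finset (Subgroup G) | NCh p ⊤ R C},
      (-1 : ℂ) ^ (C.card + 1) * ((Nat.card (nrm C) : ℂ) * LL p M χ (nrm C)) =
        (Nat.card G : ℂ) * (Le p M (⊤ : Subgroup G) θ - Le p M (nz (Ec p c D)) θ)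

/-- **OB5** (short to medium; from RTN, HRN, EXB, TRE, ECN, LEL). A property of `LL` goes to the block `b(θ)^(nz E)`. Proof: `N = nz (Ec p c D) ≥ nz D ≥ D, cz D`. EXB for `L = N`, `Q = D`: `φ ∈ IrrOn N`, `SB M N θ φ`. RTN, HRN: `Rt` and `H` in the type `N` for `D.subgroupOf N`, `rN N θ`, `rN N φ`. The hypothesis and
LEL for the type `N`: `P (Le p M ⊤ (rN N θ))`, `⊤ = N.subgroupOf N`, TRE. -/
def OB5_stmt : Prop :=
  ∀ (p : ℕ) (M : Ideal (integralClosure ℤ ℂ)), Setup p M → ∀ H : HP, Her p H → ∀ P : ℂ → Prop,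
    (∀ (G : Type) [Group G] [Finite G]
    (D : Subgroup G) (x : G) (θ χ : G → ℂ), Rt p M D x θ χ → H G D (TT M D θ) → P (LL p M χ ⊤)) →
    ∀ (G : Type) [Group G] [Finite G]
    (D : Subgroup G) (x : G) (θ χ : G → ℂ), Rt p M D x θ χ → H G D (TT M D θ) → ∀ c : ℕ, P (Le p M (nz (Ec p c D)) θ)

/-! ## 4. Fong-Reynolds: `R ≤ D` normal in `G`, `K = cz R`, `S = cz R ⊔ TT M D θ`, `e = eS K (Bl M K θ)` -/

/-- **FRA5** (short to medium; from LOA, FRA4, CJG, IDM, CVF, EPR). The idempotent. Facts: `nz R = ⊤`, so `K` is normal in `G`. (1) FRA4 (3) and CJG for `t ∈ T`, CJG (sixth item) for `k ∈ K`: `cjF h` maps `Bl M K θ` onto itself for `h ∈ S` (`Subgroup.closure_induction` or `mem_sup` with `K` normal), so `e (h x h⁻¹) = e x`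
(reindex the sum; degrees do not change). (2) for `h ∉ S` no `cjF h ψ`, `ψ ∈ Bl M K θ`, is in `Bl M K θ` (FRA4 (2): otherwise `k h ∈ T`, `h ∈ K T`). `x ↦ e (h⁻¹ x h)` is `eS K (cjF h '' Bl M K θ)` and the two sets are disjoint: EPR (with `j`, `j'` the idempotents, `cv (eS K S) (eS K S) = eS K S`: IDM). -/
def FRA5_stmt : Prop :=
  ∀ (p : ℕ) (M : Ideal (integralClosure ℤ ℂ)), Setup p M → ∀ (G : Type) [Group G] [Finite G]
    (D : Subgroup G) (x : G) (θ χ : G → ℂ), Rt p M D x θ χ → ∀ R ≤ D, nz R = ⊤ →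
    (∀ h ∈ cz R ⊔ TT M D θ, ∀ y, eS (cz R) (Bl M (cz R) θ) (h * y * h⁻¹) = eS (cz R) (Bl M (cz R) θ) y) ∧
    (∀ h : G, h ∉ cz R ⊔ TT M D θ →
      cv (fun y => eS (cz R) (Bl M (cz R) θ) (h⁻¹ * y * h)) (eS (cz R) (Bl M (cz R) θ)) = fun _ => 0)

/-- **FRB5** (medium; from CFA, CCJ, CUQ of DR, FOV3, LOA, RTN, FEQ, FSI, CJG, TR1, TR2, TR3, B2). `φ ∈ IrrOn H`, `H ≥ cz R`, is in the block `b(θ)^H` iff it is over the block `b(θ)^(cz R)`. Proof. `K = cz R`. CFA (1): `ψ ∈ IrrOn K`, `e > 0`, `OverE K H φ ψ e`; FOV3 (`P = R`, `N = L = H`): `SB M H φ ψ`; and `mt K φ ψ' ≠ 0` iff `ψ'` is an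
`H`-conjugate of `ψ` (CCJ (2), B2). `←`: `mt K φ ψ' ≠ 0`, `ψ' = cjF n ψ ∈ Bl M K θ`: `SB M H φ ψ`, `SB M H ψ (cjF n ψ)` (CJG, sixth item), `SB M H ψ' θ` (FSI (1)). `→`: `SB M H φ θ`. RTN: `Rt` in the type `H` for `D.subgroupOf H`, `rN H θ`, `rN H φ` (`D ≤ cz D ≤ K ≤ H`); LOA; `con` for the subgroup `R.subgroupOf H` and `rN H ψ`
(`Induces M (rN H ψ) (rN H φ)` by TPR, TR2 from `SB M H ψ φ`): `n ∈ H` with `SB M K θ (cjF n ψ)` (`cjS n R = R`; TR2, TR3). So `cjF n ψ ∈ Bl M K θ`, `mt K φ (cjF n ψ) = e ≠ 0`. -/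
def FRB5_stmt : Prop :=
  ∀ (p : ℕ) (M : Ideal (integralClosure ℤ ℂ)), Setup p M → ∀ (G : Type) [Group G] [Finite G]
    (D : Subgroup G) (x : G) (θ χ : G → ℂ), Rt p M D x θ χ → ∀ R ≤ D, nz R = ⊤ →
    ∀ H : Subgroup G, cz R ≤ H → ∀ φ ∈ IrrOn H, (φ ∈ Bl M H θ ↔ ∃ ψ ∈ Bl M (cz R) θ, mt (cz R) φ ψ ≠ 0)

/-- **FRC5** (medium; pure representation theory: `e` an idempotent of the centre of the group algebra of `S ≤ H`, whose `H`-conjugates outside `S` are orthogonal to it; from IDM, EXP, CCI, CVF of GR, EVM, QRS, B2). `φ` irreducible with `ev φ e 1 ≠ 0` is `∑_ζ mt S φ ζ * Ind ζ`, the sum over the `ζ ∈ IrrOn S` with `cc ζ e = 1`. Proof.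
`g = ev φ e`. (1) `g x = 0` for `x ∈ H`, `x ∉ S`: `g x = ev φ (cv e e) x = ∑_{y,z} e y * e z * φ (x * (y * z))`, `φ (x y z) = φ (z x y) = φ (x * ((x⁻¹ z x) * y))` (`φ` is a class function of `H`), so `g x = ev φ (cv e' e) x` with `e' y = e (x * y * x⁻¹)`, and `cv e' e = 0` (hypothesis for `x⁻¹`). For `x ∉ H` `g x = 0`. (2) `E y = |S|⁻¹ ∑_{h ∈ H} e (h⁻¹ y h)`:
`CF H E`, `cv E E = E` (`cv E e = |S|⁻¹ ∑_h cv e^h e = e`; average), so `cc φ E` is `0` or `1` (CCI (2)); `cc φ E * φ 1 = ∑ E y φ y = (|H| / |S|) ev φ e 1 ≠ 0`, so `cc φ E = 1` and `φ x = ev φ E x = |S|⁻¹ ∑_{h ∈ H} g (h⁻¹ x h)` for `x ∈ H` (EVM last item). (3) for `x ∈ S`: `g x = ∑_{ζ ∈ IrrOn S} mt S φ ζ * ev ζ e x` (QRS) and `ev ζ e x = cc ζ e * ζ x`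
(EVM), `cc ζ e` is `0` or `1`. -/
def FRC5_stmt : Prop :=
  ∀ (G : Type) [Group G] [Finite G] (S H : Subgroup G), S ≤ H → ∀ e : G → ℂ, CF S e → cv e e = e →
    (∀ h ∈ H, h ∉ S → cv (fun y => e (h⁻¹ * y * h)) e = fun _ => 0) → ∀ φ ∈ IrrOn H, ev φ e 1 ≠ 0 →
    ∀ x ∈ H, φ x = (∑ᶠ h ∈ (H : Set G), ∑ᶠ ζ ∈ {ζ : G → ℂ | ζ ∈ IrrOn S ∧ cc ζ e = 1}, mt S φ ζ * ζ (h⁻¹ * x * h)) / Nat.card S

/-- **FRD5** (short to medium; from FRC5, QRS, B2). Exactly one multiplicity is `1`. Proof: `mt S φ ζ = n ζ` natural numbers (QRS). `(φ, φ)_H = 1` (B2); insert FRC5 for the first factor: `∑_{x ∈ H} φ x φ x⁻¹ = |S|⁻¹ ∑_ζ n ζ ∑_{h} ∑_{x ∈ H} ζ (h⁻¹ x h) φ x⁻¹ = |H| / |S| ∑_ζ n ζ ∑_{x ∈ S} ζ x φ x⁻¹ = |H| ∑_ζ n ζ * conj (n ζ)`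
(`φ x⁻¹ = conj φ x`, or `mt` symmetric: `∑ ζ x φ x⁻¹ = ∑ φ x ζ x⁻¹`, `x ↦ x⁻¹`). So `∑ (n ζ) ^ 2 = 1`. -/
def FRD5_stmt : Prop :=
  ∀ (G : Type) [Group G] [Finite G] (S H : Subgroup G), S ≤ H → ∀ e : G → ℂ, CF S e → cv e e = e →
    (∀ h ∈ H, h ∉ S → cv (fun y => e (h⁻¹ * y * h)) e = fun _ => 0) → ∀ φ ∈ IrrOn H, ev φ e 1 ≠ 0 →
    ∃ ζ ∈ IrrOn S, cc ζ e = 1 ∧ mt S φ ζ = 1 ∧ (∀ ζ' ∈ IrrOn S, cc ζ' e = 1 → ζ' ≠ ζ → mt S φ ζ' = 0) ∧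
      ∀ x ∈ H, φ x = (∑ᶠ h ∈ (H : Set G), ζ (h⁻¹ * x * h)) / Nat.card S

/-- **FRE5** (short; from QRS or EXP, B2; compare KUP). Every `ζ ∈ IrrOn S` is a constituent of the restriction of some `φ ∈ IrrOn H`. Proof: `∑_{φ ∈ IrrOn H} φ 1 * φ x` is `|H|` at `1` and `0` elsewhere (as in KUP), so `∑_φ φ 1 * mt S φ ζ = |H| ζ 1 / |S| ≠ 0`. -/
def FRE5_stmt : Prop :=
  ∀ (G : Type) [Group G] [Finite G] (S H : Subgroup G), S ≤ H → ∀ ζ ∈ IrrOn S, ∃ φ ∈ IrrOn H, mt S φ ζ ≠ 0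

/-- **FR5** (medium; from FRA5, FRB5, FRD5, FRE5, QRS, EVM, IDM, QEI, FBC, B2). FONG-REYNOLDS. `H` contains `cz R` and `T`: `l(b(θ)^H)` does not depend on `H`. Proof: `K = cz R`, `b = Bl M K θ`, `e = eS K b`, `S = K ⊔ T ≤ H`. `CF S e` (FRA5 (1); `e` vanishes outside `K ≤ S`), `cv e e = e` (IDM). For `φ ∈ IrrOn H` (also for `H = S`):
`ev φ e 1 = ∑_{ψ ∈ b} mt K φ ψ * ψ 1` (QRS, EVM, IDM), natural numbers, so `ev φ e 1 ≠ 0 ↔ ∃ ψ ∈ b, mt K φ ψ ≠ 0 ↔ φ ∈ Bl M H θ` (FRB5); for `ζ ∈ IrrOn S`: `cc ζ e * ζ 1 = ev ζ e 1` (EVM, `CF S e`), `cc ζ e ∈ {0, 1}` (CCI), so `cc ζ e = 1 ↔ ζ ∈ Bl M S θ`. FRD5 gives for every `φ ∈ Bl M H θ` a `ζ = F φ ∈ Bl M S θ`. `F` is injective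
(`φ` is given by `ζ`) and surjective (FRE5: `φ` with `mt S φ ζ ≠ 0`; `ev φ e 1 ≠ 0` because `mt K φ ψ ≥ mt S φ ζ * mt K ζ ψ` (QRS twice), so `φ ∈ Bl M H θ` and `F φ = ζ`). `EE p H φ φ = |H|⁻¹ ∑_{v ∈ H reg} φ v φ v⁻¹ = |S|⁻¹ ∑_{v ∈ S reg} ζ v φ v⁻¹` (insert the formula for `φ v`; `v ↦ h⁻¹ v h`, `φ` a class function of `H`)
`= ∑_{ζ'' ∈ IrrOn S} mt S φ ζ'' * EE p S ζ ζ''` (QRS) `= EE p S ζ ζ` (`ζ'' ∉ Bl M S θ`: QEI (2) with FBC; `ζ'' ∈ Bl M S θ`, `≠ ζ`: multiplicity `0`). -/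
def FR5_stmt : Prop :=
  ∀ (p : ℕ) (M : Ideal (integralClosure ℤ ℂ)), Setup p M → ∀ (G : Type) [Group G] [Finite G]
    (D : Subgroup G) (x : G) (θ χ : G → ℂ), Rt p M D x θ χ → ∀ R ≤ D, nz R = ⊤ →
    ∀ H : Subgroup G, cz R ≤ H → TT M D θ ≤ H → Le p M H θ = Le p M (cz R ⊔ TT M D θ) θ

/-! ## 5. The main induction and the final statements -/

/-- **MN5** (short: COPY `MNG`, `Pool/Agent/helper58/LE/MNG.lean`; from TG5, DV5, OPD, OB5, FR5, ECN, LEL). `l(B) = l(b(θ)^(N_G(E)))`, `E = Ec p c D`. Proof: strong induction on `|G|`. `R = O_p(G) ≤ D`. If `E ≤ R`: FR5 for `H = ⊤` and for `H = nz E` (`cz R ≤ nz E`: ECN (6); `T ≤ nz D ≤ nz E`). Otherwise `z ∈ D` with `z ^ p ^ (c - 1) ∉ R` (ECN (4)),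
TG5 and DV5: `Le ⊤ - Le (nz E) = p ^ c * m`; both are natural numbers between `1` and `p ^ c` (`BDH`, LEL, OB5), so they are equal (`MNG_num`). -/
def MN5_stmt : Prop :=
  ∀ (p : ℕ) (M : Ideal (integralClosure ℤ ℂ)), Setup p M → ∀ H : HP, Her p H → ∀ c : ℕ, 1 ≤ c → BDH p M H (p ^ c) →
    ∀ (G : Type) [Group G] [Finite G] (D : Subgroup G) (x : G) (θ χ : G → ℂ), Rt p M D x θ χ → H G D (TT M D θ) →
    Le p M (⊤ : Subgroup G) θ = Le p M (nz (Ec p c D)) θ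

/-- **FS5** (short: COPY `FSG`, `Pool/Agent/helper58/LE/FSG.lean`; from TG5, MN5, FT0, KRG, B2, ECN). The sum over `d` of the alternating sums is zero. (`R = ⊥`: `¬ Ec p c D ≤ ⊥` by ECN (5).) -/
def FS5_stmt : Prop :=
  ∀ (p : ℕ) (M : Ideal (integralClosure ℤ ℂ)), Setup p M → ∀ H : HP, Her p H → ∀ c : ℕ, 1 ≤ c → BDH p M H (p ^ c) →
    ∀ (G : Type) [Group G] [Finite G] (D : Subgroup G) (x : G) (θ χ : G → ℂ), Rt p M D x θ χ → H G D (TT M D θ) →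
    (∃ z ∈ D, z ^ p ^ (c - 1) ≠ 1) → IsOp p (⊤ : Subgroup G) ⊥ → ∑ᶠ d : ℤ, altSum (trivE G) p M χ d ⊤ = 0

/-- **FD5** (short: COPY `FDG`, `Pool/Agent/helper58/LE/FDG.lean`; from TG5, MN5, HNG, FT0, KRG, ECN). Dade's conjecture for `B`, all defects `d`, if the heights are zero under `H`. -/
def FD5_stmt : Prop :=
  ∀ (p : ℕ) (M : Ideal (integralClosure ℤ ℂ)), Setup p M → ∀ H : HP, Her p H → ∀ c : ℕ, 1 ≤ c → BDH p M H (p ^ c) → HTH p M H →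
    ∀ (G : Type) [Group G] [Finite G] (D : Subgroup G) (x : G) (θ χ : G → ℂ), Rt p M D x θ χ → H G D (TT M D θ) →
    (∃ z ∈ D, z ^ p ^ (c - 1) ≠ 1) → IsOp p (⊤ : Subgroup G) ⊥ → ∀ d : ℤ, altSum (trivE G) p M χ d ⊤ = 0

end Pool.Agent.L5
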