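import Mathlib
import Pool.Agent.helper37.L5.Spec
import Pool.Agent.helper58.FI4E.Spec
import Pool.Agent.helper70.FI4E.SpecK
import Pool.Agent.helper12.TY.DefsW

/-!
# MP_baa4d7_al, project L5, block E (extensions): the equivariant form of block L5, `E_B / E[B]` cyclic of order prime to `p`

OUTPUT: `DC5`. Twins of the rows of FI4E (`helper58/FI4E/{Defs,Spec}`, `helper70/FI4E/SpecK`), all proved.

RULES FOR ROWS. File `Pool/Agent/<seat>/L5/XXX.lean` with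

  import Pool.Agent.helper37.L5.SpecE
  set_option autoImplicit false
  namespace Pool.Agent.L5
  open Pool.Agent.helper58.DC Pool.Agent.DI Pool.Agent.GR Pool.Agent.OB Pool.Agent.DR Pool.Agent.FI Pool.Agent.FI3 Pool.Agent.FI4 Pool.Agent.FI4I Pool.Agent.FI4E Pool.Agent.LE
  theorem XXX (hYYY : YYY_stmt) ... : XXX_stmt := ...
  end Pool.Agent.L5

auxiliary lemmas prefixed `XXX_`, no sorry, no double quotes, no `convert`, no `congr!`. The rows named in the docstring are hypotheses; rows of `Spec` (L5), of FI4E and of all earlier specs may be added (no circles). NOTATION: `am α Q` image of `Q`, `al α g = conj g * α`, `FxC α C` all terms fixed, `Stb M χ α` the block of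
`χ` is stable, `tS p H S α = ∑ᶠ ψ ∈ S, EE p H (funMap α ψ) ψ`, `tL p M χ H α = tS p H (Blk M χ H) α`, `Om p M χ R α`, `Rst N α β`: `β` is the restriction of `α` to the type `N`. BAA (`helper58/FI4E/Spec`) has all facts on automorphisms.
-/

set_option autoImplicit false

namespace Pool.Agent.L5

open Pool.Agent.helper58.DC Pool.Agent.DI Pool.Agent.GR Pool.Agent.OB Pool.Agent.DR Pool.Agent.FI Pool.Agent.FI3 Pool.Agent.FI4 Pool.Agent.FI4I Pool.Agent.FI4E Pool.Agent.LE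

section

variable {G : Type} [Group G]

/-- The trace of `α` on the block `b(θ)^K` of `K`. -/
noncomputable def tE (p : ℕ) (M : Ideal (integralClosure ℤ ℂ)) (K : Subgroup G) (θ : G → ℂ) (α : MulAut G) : ℂ :=
  tS p K (Bl M K θ) α

/-- `α` fixes the subpair `(D, b(θ))`. -/
def FxR (M : Ideal (integralClosure ℤ ℂ)) (D : Subgroup G) (θ : G → ℂ) (α : MulAut G) : Prop :=
  am α D = D ∧ SB M (cz D) (funMap α θ) θ

end

/-! ## 1. Facts -/

/-- **FXA** (medium, several short items; from BAA, FEQ, FSI, IM, `SB.symm`, `SB.trans`). `C = cz D`. (1) induction on `k`: `am (α * α ^ k) D`, `funMap_mul`, BAA (SB under `α`, `am α C = C`). (2) `am (al α g) D = cjS g D` (`am_al`), `= D` iff `g ∈ nz D` (FEQ); `funMap (al α g) θ = cjF g (funMap α θ)` (`funMap_al`), and for `g ∈ nz D`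
`SB M C (cjF g (funMap α θ)) (cjF g θ)` (FEQ, `cjS g C = C`); so `SB M C (funMap (al α g) θ) θ ↔ SB M C (cjF g θ) θ`. (3) `t ∈ TT` iff `α t ∈ TT`: `cjF (α t) (funMap α θ) = funMap α (cjF t θ)` (BAA), SB under `α`. (4) `conj_al` with `m = h⁻¹ * g * α h`: `al α g = conj h * al α m * (conj h)⁻¹`; FEQ: it fixes `(cjS h D, cjF h θ)` iff `al α m` fixes `(D, θ)`;
then (2). (5) `am α K = K`, `funMap α ζ ∈ IrrOn K`, `SB M K (funMap α ζ) (funMap α θ)` (BAA), `SB M K (funMap α θ) θ` (FSI (1): both vanish outside `C ≤ K`). (6) the generating set of `Ec` is mapped onto itself (`mem_am`, `Subgroup.map_closure` or `closure` ext; `map_pow`). (7) `Induces M θ χ`; `Induces M (funMap α θ) (funMap α χ)` (BAA), `Induces M (funMap α θ) χ` (FSI (2)), IM. -/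
def FXA_stmt : Prop :=
  ∀ (p : ℕ) (M : Ideal (integralClosure ℤ ℂ)), Setup p M → ∀ (G : Type) [Group G] [Finite G]
    (D : Subgroup G), ∀ θ ∈ IrrOn (cz D), ∀ α : MulAut G, FxR M D θ α →
    (∀ k : ℕ, FxR M D θ (α ^ k)) ∧ (∀ g : G, FxR M D θ (al α g) ↔ g ∈ TT M D θ) ∧
    am α (TT M D θ) = TT M D θ ∧
    (∀ h g : G, FxR M (cjS h D) (cjF h θ) (al α g) ↔ h⁻¹ * g * α h ∈ TT M D θ) ∧
    (∀ K : Subgroup G, cz D ≤ K → am α K = K → ∀ ζ ∈ Bl M K θ, funMap α ζ ∈ Bl M K θ) ∧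
    (∀ e : ℕ, am α (Ec p e D) = Ec p e D ∧ am α (nz (Ec p e D)) = nz (Ec p e D)) ∧
    ∀ χ ∈ Irr G, Induces M θ χ → Stb M χ α

/-- **DFR5** (short to medium; from DFA, CON, BAA, FEQ). If the block is stable then some `al α g` fixes the root. Proof: DFA: `g₁` with `am α₁ D = D`, `α₁ = al α g₁`, `Stb M χ α₁` (BAA). `θ₁ = funMap α₁ θ ∈ IrrOn (cz D)` induces to `χ` (as in DFA). CON for `Q = D`: `n` with `cjS n D ≤ D`, so `n ∈ nz D`, `SB M (cz D) θ (cjF n θ₁)`; `al α₁ n = al α (n * g₁)`. -/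
def DFR5_stmt : Prop :=
  ∀ (p : ℕ) (M : Ideal (integralClosure ℤ ℂ)), Setup p M → ∀ (G : Type) [Group G] [Finite G]
    (D : Subgroup G) (x : G) (θ χ : G → ℂ), Rt p M D x θ χ → ∀ α : MulAut G, Stb M χ α →
    ∃ g : G, FxR M D θ (al α g)

/-- **TRE5** (short to medium; twin of TRE (L5) and of TRE (FI4E); from TR1, TR2, TR4, TRA). Transfer to the type `N`. -/
def TRE5_stmt : Prop :=
  ∀ (p : ℕ) (M : Ideal (integralClosure ℤ ℂ)), Setup p M → ∀ (G : Type) [Group G] [Finite G] (N H : Subgroup G), H ≤ N →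
    ∀ θ : G → ℂ, (∀ x, x ∉ H → θ x = 0) → ∀ (α : MulAut G) (β : MulAut N), Rst N α β →
    tE p M (H.subgroupOf N) (rN N θ) β = tE p M H θ α

/-- **TEI5** (short to medium; from BAA, TSI, TSJ, FEQ). Conjugation and inner automorphisms. (1) `ψ ↦ cjF h ψ` is a bijection from `Bl M K θ` onto `Bl M (cjS h K) (cjF h θ)` (FEQ), `conj_al`, `EE` under conjugation (BAA for `conj h`). (2) TSI for `S = Bl M H θ`. (3) `funMap 1 ψ = ψ`. -/
def TEI5_stmt : Prop :=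
  ∀ (p : ℕ) (M : Ideal (integralClosure ℤ ℂ)), Setup p M → ∀ (G : Type) [Group G] [Finite G] (θ : G → ℂ) (α : MulAut G),
    (∀ (K : Subgroup G) (h g : G), tE p M (cjS h K) (cjF h θ) (al α g) = tE p M K θ (al α (h⁻¹ * g * α h))) ∧
    (∀ H : Subgroup G, am α H = H → ∀ n ∈ H, tE p M H θ (al α n) = tE p M H θ α) ∧
    ∀ H : Subgroup G, tE p M H θ 1 = Le p M H θ

/-- **OUP5** (short to medium; pure). Inner powers. (1) `(al α g) ^ n = conj (g * α g * .. * α ^ (n - 1) g * x)` (induction on `n`: `(al α g) ^ n = conj y * α ^ n` for some `y`; `MulAut.conj` is a homomorphism, `α * conj y * α⁻¹ = conj (α y)`). (2) a power of `β` fixes the terms `Q` of the chain: `cjS y Q = Q`, so `y ∈ nz Q`. (3) if `β ^ n = conj y`, `y ∈ N` then the restriction to `N` satisfies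
`β' ^ n = conj ⟨y, _⟩` (values). -/
def OUP5_stmt : Prop :=
  ∀ (G : Type) [Group G] [Finite G] (α : MulAut G) (n : ℕ),
    ((∃ x : G, α ^ n = MulAut.conj x) → ∀ g : G, ∃ y : G, (al α g) ^ n = MulAut.conj y) ∧
    (∀ y : G, α ^ n = MulAut.conj y → ∀ C : Finset (Subgroup G), FxC α C → y ∈ nrm C) ∧
    ∀ (N : Subgroup G) (β : MulAut N), Rst N α β → ∀ y : G, ∀ hy : y ∈ N, α ^ n = MulAut.conj y →
      β ^ n = MulAut.conj (⟨y, hy⟩ : N)

/-- **EJ5** (short; pure). `J2 n = ∏_{l ∣ n} l ^ (2 (v_l n - 1)) (l ^ 2 - 1)`; if `p ∤ m` the power of `p` in `J2 m` is that in `∏_{l ∣ m} (l ^ 2 - 1)`, which divides the product for `n` if the prime divisors of `m` divide `n` (`Nat.Coprime.dvd_of_dvd_mul..`, `Finset.prod_dvd_prod_of_subset`). -/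
def EJ5_stmt : Prop :=
  ∀ (p n m v : ℕ), p.Prime → 0 < n → 0 < m → ¬ p ∣ n → (∀ l : ℕ, l.Prime → l ∣ m → l ∣ n) →
    ¬ p ^ v ∣ Pool.Agent.MAPW.J2 n → ¬ p ∣ m ∧ ¬ p ^ v ∣ Pool.Agent.MAPW.J2 m

/-- **PRO5** (short to medium; pure). Reduction of the order. Proof: `orderOf α = n₁ * n₂`, `n₁` the product of the `l ^ v_l` over the primes `l ∣ n`, `n₂` prime to `n` (and to `n₁`). Chinese remainder: `k ≡ 1` mod `n₁`, `k ≡ 0` mod `n₂`, `k ≥ 1`. `(α ^ k) ^ n₁ = 1`. `α ^ (k - 1)`: its `n₂`-th power is `1` and its `n`-th power is `(conj x) ^ (k - 1)`, inner;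
with `a n + b n₂ = 1` it is itself inner: `α ^ (k - 1) = conj g`, `α ^ k = conj g * α = al α g` (the inner automorphisms form the normal subgroup `MulAut.conj.range`). -/
def PRO5_stmt : Prop :=
  ∀ (G : Type) [Group G] [Finite G] (α : MulAut G) (n : ℕ), 0 < n → (∃ x : G, α ^ n = MulAut.conj x) →
    ∃ (k : ℕ) (g : G), α ^ k = al α g ∧ ∀ l : ℕ, l.Prime → l ∣ orderOf (α ^ k) → l ∣ n

/-! ## 2. The local blocks -/

/-- **LBE5** (medium; from ACJ5, DCT5, BAA, FEQ, FXA-type facts). One block. Proof. ACJ5: `h₀`; `A = {h | Q ≤ cjS h D ∧ SB M N (cjF h θ) φ} = N h₀ T`. For `h ∈ A`: `am β (cjS h D) = cjS (β h) (am β D) = cjS h' D`, `h' = β h * k`, and `funMap β (cjF h θ) = cjF (β h) (funMap β θ)` is in the block of `cjF h' θ` (BAA, FEQ).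
`h' ∈ A`: `Q = am β Q ≤ cjS h' D`; `SB M N (funMap β (cjF h θ)) (funMap β φ)` (BAA, `am β N = N`), stable, FSI (1). So `h' = n₁ * h * t₁` (`n₁ ∈ N`, `t₁ ∈ T`: both in the double coset). `al β n` fixes `(cjS h D, cjF h θ)` iff `cjS (n * h') D = cjS h D` and `SB M (cz (cjS h D)) (cjF (n * h') θ) (cjF h θ)`, i.e. `h⁻¹ * n * h' ∈ T` (FEQ), i.e. `h⁻¹ * n * n₁ * h ∈ T`,
`n * n₁ ∈ N ⊓ cjS h T`. So for every `h ∈ A` there are `|N ⊓ cjS h T| = |N ⊓ cjS h₀ T|` such `n`, and `|A| |N ⊓ cjS h₀ T| = |N| |T|` (DCT5). -/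
def LBE5_stmt : Prop :=
  ∀ (p : ℕ) (M : Ideal (integralClosure ℤ ℂ)), Setup p M → ∀ (G : Type) [Group G] [Finite G]
    (D : Subgroup G) (x : G) (θ χ : G → ℂ), Rt p M D x θ χ → ∀ Q N : Subgroup G, Mid p Q N →
    ∀ φ ∈ Blk M χ N, ∀ β : MulAut G, am β N = N → am β Q = Q →
    (∃ k : G, am β D = cjS k D ∧ SB M (cz (cjS k D)) (funMap β θ) (cjF k θ)) → SB M N (funMap β φ) φ →
    {q : G × G | q.1 ∈ N ∧ (Q ≤ cjS q.2 D ∧ SB M N (cjF q.2 θ) φ) ∧ FxR M (cjS q.2 D) (cjF q.2 θ) (al β q.1)}.ncard =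
      Nat.card N * Nat.card (TT M D θ)

/-- **LOE5** (short to medium; from LBE5, TSI, UNS, FSI, FEQ, BAA, BKV, B2; twin of LOC5). All blocks of `N`. Proof: the right side is the sum over the pairs `(n, h)` and the `φ ∈ Bl M N (cjF h θ)` of `EE p N (funMap (al β n) φ) φ = EE p N (funMap β φ) φ` (TSI); `Bl M N (cjF h θ) = {φ ∈ Blk M χ N | SB M N (cjF h θ) φ}`. Exchange: for fixed `φ ∈ Blk M χ N` the number of pairs is
`|N| |T|` if `SB M N (funMap β φ) φ` (LBE5). If `φ` is not stable, both `EE p N (funMap β φ) φ = 0` (QEI (2) with `BC M N (Bl M N φ)`; or UNS) . -/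
def LOE5_stmt : Prop :=
  ∀ (p : ℕ) (M : Ideal (integralClosure ℤ ℂ)), Setup p M → ∀ (G : Type) [Group G] [Finite G]
    (D : Subgroup G) (x : G) (θ χ : G → ℂ), Rt p M D x θ χ → ∀ Q N : Subgroup G, Mid p Q N →
    ∀ β : MulAut G, am β N = N → am β Q = Q →
    (∃ k : G, am β D = cjS k D ∧ SB M (cz (cjS k D)) (funMap β θ) (cjF k θ)) →
    (Nat.card (TT M D θ) : ℂ) * ((Nat.card N : ℂ) * tL p M χ N β) =
      ∑ᶠ n ∈ (N : Set G), ∑ᶠ h ∈ {h : G | Q ≤ cjS h D ∧ FxR M (cjS h D) (cjF h θ) (al β n)},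
        tE p M N (cjF h θ) (al β n)

/-- **LCG5** (short to medium; from LOE5, TSI, BAA; COPY `LCG`, grep `theorem LCG`). One chain. For `α` fixing `(D, θ)` and `g₀` with `FxC (al α g₀) C`, `β = al α g₀`: `am β D = cjS g₀ D`, `SB M (cz (cjS g₀ D)) (funMap β θ) (cjF g₀ θ)` (`funMap_al`, FEQ). -/
def LCG5_stmt : Prop :=
  ∀ (p : ℕ) (M : Ideal (integralClosure ℤ ℂ)), Setup p M → ∀ (G : Type) [Group G] [Finite G]
    (D : Subgroup G) (x : G) (θ χ : G → ℂ), Rt p M D x θ χ → ∀ (C : Finset (Subgroup G)), ∀ Q ∈ C,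
    (∀ R ∈ C, R ≤ Q) → Mid p Q (nrm C) → ∀ α : MulAut G, FxR M D θ α →
    (Nat.card (TT M D θ) : ℂ) * ∑ᶠ g ∈ {g : G | FxC (al α g) C}, tL p M χ (nrm C) (al α g) =
      ∑ᶠ g ∈ {g : G | FxC (al α g) C},
        ∑ᶠ h ∈ {h : G | (∀ R ∈ C, R ≤ cjS h D) ∧ FxR M (cjS h D) (cjF h θ) (al α g)},
          tE p M (nrm C) (cjF h θ) (al α g)

/-- **IHE5** (short to medium; twin of IHN5 and of IHE; from RTN, HRN, HRC, BKV, EXB, TRE5, TRA, TR3, ECN, FEQ, FSI, OUP5). The induction hypothesis. `β'` the restriction of `β` to `N` (TRA); `FxR` goes to the type `N` (TRA (3), TR3, TR2); `β' ^ n = conj y'` (OUP5 (3)). -/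
def IHE5_stmt : Prop :=
  ∀ (p : ℕ) (M : Ideal (integralClosure ℤ ℂ)), Setup p M → ∀ H : HP, Her p H → ∀ (G : Type) [Group G] [Finite G]
    (D : Subgroup G) (x : G) (θ χ : G → ℂ), Rt p M D x θ χ → H G D (TT M D θ) → ∀ e n : ℕ,
    ∀ Q N : Subgroup G, Mid p Q N →
    (∀ (D' : Subgroup N) (x' : N) (θ' χ' : N → ℂ), Rt p M D' x' θ' χ' → H N D' (TT M D' θ') →
      ∀ β : MulAut N, FxR M D' θ' β → (∃ y : N, β ^ n = MulAut.conj y) →
      tE p M (⊤ : Subgroup N) θ' β = tE p M (nz (Ec p e D')) θ' β) →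
    ∀ h : G, Q ≤ cjS h D → ∀ β : MulAut G, am β N = N → FxR M (cjS h D) (cjF h θ) β →
      (∃ y ∈ N, β ^ n = MulAut.conj y) →
      tE p M N (cjF h θ) β = tE p M (N ⊓ nz (Ec p e (cjS h D))) (cjF h θ) β

/-- **TGP5** (medium; pure; twin of FTG5 and of TGP). The toggle with an automorphism. Proof: as FTG5; `β` fixes `E`, so `FxC β` is preserved by inserting or removing `P ⊔ E` (`am β (P ⊔ E) = am β P ⊔ am β E`). The subgroups `≤ D` normalise each other (`D` is commutative), so `NCh p ⊤ R C` for a chain of subgroups of `D` says `PCh p D R C`. -/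
def TGP5_stmt : Prop :=
  ∀ (G : Type) [Group G] [Finite G] (p : ℕ) [Fact p.Prime] (D R E : Subgroup G) (β : MulAut G),
    IsPGroup p D → (∀ a ∈ D, ∀ b ∈ D, a * b = b * a) → R ≤ D → E ≤ D → ¬ E ≤ R → nz R = ⊤ → am β E = E → am β R = R →
    ∀ f : Subgroup G → ℂ,
    ∑ᶠ C ∈ {C : Finset (Subgroup G) | (NCh p ⊤ R C ∧ C ≠ {R}) ∧ FxC β C ∧ ∀ Q ∈ C, Q ≤ D},
      (-1 : ℂ) ^ (C.card + 1) * f (nrm C ⊓ nz E) = - f (nz E)

/-- **CTG5** (short to medium; from FXA (4), TEI5, ECN, BAA; twin of CTG). Proof: exchange the sums; for fixed `h` the `g` with `FxR M (cjS h D) (cjF h θ) (al α g)` are those with `m = h⁻¹ * g * α h ∈ T` (FXA (4)), `|T|` of them, and the term is `tE p M (nz (Ec p e D)) θ (al α m)` (TEI5 (1), `nz (Ec p e (cjS h D)) = cjS h (nz (Ec p e D))`: ECN, FEQ) `= tE p M (nz (Ec p e D)) θ α`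
(TEI5 (2): `m ∈ T ≤ nz D ≤ nz (Ec p e D)`, FXA (6)). -/
def CTG5_stmt : Prop :=
  ∀ (p : ℕ) (M : Ideal (integralClosure ℤ ℂ)), Setup p M → ∀ (G : Type) [Group G] [Finite G]
    (D : Subgroup G) (x : G) (θ χ : G → ℂ), Rt p M D x θ χ → ∀ e : ℕ, ∀ α : MulAut G, FxR M D θ α →
    ∑ᶠ g : G, ∑ᶠ h ∈ {h : G | FxR M (cjS h D) (cjF h θ) (al α g)},
      tE p M (nz (Ec p e (cjS h D))) (cjF h θ) (al α g) =
      (Nat.card G : ℂ) * ((Nat.card (TT M D θ) : ℂ) * tE p M (nz (Ec p e D)) θ α)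

/-- **TOE5** (medium; from TGP5, CTG5, FXA, ECN, BAA; twin of TOE). Proof: exchange the finite sums over `C`, `g`, `h`: for fixed `g`, `h` with `FxR M (cjS h D) (cjF h θ) (al α g)` the sum over the `C` is `- tE p M (nz E₁) (cjF h θ) (al α g)`, `E₁ = Ec p e (cjS h D)`, by TGP5 for `D₁ = cjS h D`, `β = al α g` (`am β E₁ = E₁`: FXA (6) for `(cjS h D, cjF h θ)`, `β`),
`f K = tE p M K (cjF h θ) β`; `R = cjS h R ≤ D₁`, `¬ E₁ ≤ R`. Then CTG5. -/
def TOE5_stmt : Prop :=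
  ∀ (p : ℕ) (M : Ideal (integralClosure ℤ ℂ)), Setup p M → ∀ (G : Type) [Group G] [Finite G]
    (D : Subgroup G) (x : G) (θ χ : G → ℂ), Rt p M D x θ χ → ∀ e : ℕ,
    ∀ R : Subgroup G, IsOp p (⊤ : Subgroup G) R → R ≤ D → ¬ Ec p e D ≤ R → ∀ α : MulAut G, FxR M D θ α →
    ∑ᶠ C ∈ {C : Finset (Subgroup G) | NCh p ⊤ R C ∧ C ≠ {R}}, (-1 : ℂ) ^ (C.card + 1) *
      ∑ᶠ g ∈ {g : G | FxC (al α g) C},
        ∑ᶠ h ∈ {h : G | (∀ Q ∈ C, Q ≤ cjS h D) ∧ FxR M (cjS h D) (cjF h θ) (al α g)},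
          tE p M (nrm C ⊓ nz (Ec p e (cjS h D))) (cjF h θ) (al α g) =
      - ((Nat.card G : ℂ) * ((Nat.card (TT M D θ) : ℂ) * tE p M (nz (Ec p e D)) θ α))

/-- **TG5E** (medium; COPY `TGE2`, `Pool/Agent/helper83/FI4B/TGE2.lean` or `TG4E`; from TOE5, LCG5, IHE5, FMX3, TEI5, OUP5, FXA, BAA, LEL). The alternating sum of the traces. For `g`, `h` with `FxC (al α g) C` and `FxR .. (al α g)`: `(al α g) ^ n = conj y`, `y ∈ nrm C` (OUP5 (1), (2)), so IHE5 applies to `β = al α g`. The chain `{R}`: `tL p M χ ⊤ α = tE p M ⊤ θ α` (LEL). -/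
def TG5E_stmt : Prop :=
  ∀ (p : ℕ) (M : Ideal (integralClosure ℤ ℂ)), Setup p M → ∀ H : HP, Her p H → ∀ (G : Type) [Group G] [Finite G]
    (D : Subgroup G) (x : G) (θ χ : G → ℂ), Rt p M D x θ χ → H G D (TT M D θ) → ∀ e n : ℕ,
    ∀ R : Subgroup G, IsOp p (⊤ : Subgroup G) R → R ≤ D → ¬ Ec p e D ≤ R → ∀ α : MulAut G, FxR M D θ α →
    (∃ y : G, α ^ n = MulAut.conj y) →
    (∀ (G' : Type) [Group G'] [Finite G'], Nat.card G' < Nat.card G → ∀ (D' : Subgroup G') (x' : G')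
      (θ' χ' : G' → ℂ), Rt p M D' x' θ' χ' → H G' D' (TT M D' θ') → ∀ β : MulAut G', FxR M D' θ' β →
      (∃ y : G', β ^ n = MulAut.conj y) →
      tE p M (⊤ : Subgroup G') θ' β = tE p M (nz (Ec p e D')) θ' β) →
    Om p M χ R α = (Nat.card G : ℂ) * (tE p M (⊤ : Subgroup G) θ α - tE p M (nz (Ec p e D)) θ α)

/-- **FR5E** (short to medium; the equivariant form of FR5: COPY `FR5` when it is landed; from FRA5, FRB5, FRD5, FRE5, FXA ..). Fong-Reynolds. The bijection `F : Bl M H θ → Bl M S θ` of FR5 (`F φ` the only `ζ ∈ Bl M S θ` with `mt S φ ζ ≠ 0`) is compatible with `α` (`am α S = S`, `am α H = H`): not needed. For `φ ∈ Bl M H θ`, `ζ = F φ`: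
`EE p H (funMap α φ) φ = |H|⁻¹ ∑_{v ∈ H reg} (funMap α φ) v * φ v⁻¹`, insert the formula for `φ` in the SECOND factor: `= |S|⁻¹ ∑_{v ∈ S reg} (funMap α φ) v * ζ v⁻¹ = ∑_{ζ'' ∈ IrrOn S} mt S (funMap α φ) ζ'' * EE p S ζ'' ζ`; only `ζ'' ∈ Bl M S θ` contribute (QEI (2)), and for those `mt S (funMap α φ) ζ'' = mt S φ (funMap α⁻¹ ζ'')` is `1` for `ζ'' = funMap α ζ`
and `0` otherwise. So it is `EE p S (funMap α ζ) ζ`. Sum over `φ` (`F` is bijective). -/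
def FR5E_stmt : Prop :=
  ∀ (p : ℕ) (M : Ideal (integralClosure ℤ ℂ)), Setup p M → ∀ (G : Type) [Group G] [Finite G]
    (D : Subgroup G) (x : G) (θ χ : G → ℂ), Rt p M D x θ χ → ∀ R ≤ D, nz R = ⊤ → ∀ α : MulAut G, FxR M D θ α → am α R = R →
    ∀ H : Subgroup G, cz R ≤ H → TT M D θ ≤ H → am α H = H → tE p M H θ α = tE p M (cz R ⊔ TT M D θ) θ α

/-! ## 3. The congruence -/

/-- **EDV5** (short: COPY `EDV`, `Pool/Agent/helper70/FI4E/EDV.lean`, with `c + v` instead of `1`). `FinW_main` for `c + v`: `p ^ (c + v)` divides `J2 (orderOf α) * dadeSum`; `¬ p ^ (v + 1) ∣ J2`, so `p ^ c` divides `dadeSum` (`Int`/`Nat` valuation: `(Nat.Prime.pow_dvd_mul..)`, or `Prime.pow_dvd_of_dvd_mul_left`-type; e.g. `J2 = p ^ w * u`, `w ≤ v`, `p ∤ u`). -/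
def EDV5_stmt : Prop :=
  ∀ (p : ℕ) (M : Ideal (integralClosure ℤ ℂ)), Setup p M → ∀ (G : Type) [Group G] [Finite G],
    IsOp p (⊤ : Subgroup G) ⊥ → ∀ χ ∈ Irr G, ∀ D : Subgroup G, Pool.Agent.MAP.DefectGroup p M χ D → ∀ c v : ℕ,
    Pool.Agent.MAPW.CentreOut p (c + v) D → ∀ α : MulAut G, Stb M χ α → ¬ p ∣ orderOf α →
    ¬ p ^ (v + 1) ∣ Pool.Agent.MAPW.J2 (orderOf α) → ∃ m : ℤ, Om p M χ ⊥ α = (p : ℂ) ^ c * (Nat.card G : ℂ) * m

/-- **DV5E** (short to medium: COPY `DV4E`, `Pool/Agent/helper41/FI4E/DV4E.lean`; from EOQ, EUN, EDV5, EQA, EAU, KDG5, KG1, KBL, IM, EJ5). The congruence modulo `p ^ c` with an automorphism. `αb ^ orderOf α = 1`, so `orderOf αb ∣ orderOf α`, EJ5 (`n = orderOf α`, `m = orderOf αb`). KDG5 for `c + v`, the element `z`. -/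
def DV5E_stmt : Prop :=
  ∀ (p : ℕ) (M : Ideal (integralClosure ℤ ℂ)), Setup p M → ∀ (G : Type) [Group G] [Finite G]
    (D : Subgroup G) (x : G) (θ χ : G → ℂ), Rt p M D x θ χ → ∀ c v : ℕ, 1 ≤ c →
    ∀ R : Subgroup G, IsOp p (⊤ : Subgroup G) R → R ≤ D → ∀ z ∈ D, z ^ p ^ (c + v - 1) ∉ R →
    ∀ α : MulAut G, Stb M χ α → ¬ p ∣ orderOf α → ¬ p ^ (v + 1) ∣ Pool.Agent.MAPW.J2 (orderOf α) →
    ∃ m : ℤ, Om p M χ R α = (p : ℂ) ^ c * (Nat.card G : ℂ) * m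

/-! ## 4. Multiplicities -/

/-- **MLT5** (medium; compare PRK, `grep -rl 'theorem PRK' Pool/Agent/*/FI4E`; from QEI, BAA, B2). The multiplicities of the eigenvalues of `α`. Proof: `ι` the finite type `S`, `E φ ψ = EE p H φ ψ` idempotent (QEI (1)), `P` the permutation matrix of `ψ ↦ funMap α ψ`, `P E = E P` (BAA), `P ^ N = 1`, `trace (P ^ j * E) = tS p H S (α ^ j)` (see PRK). `P_i = N⁻¹ ∑_{j < N} ζ ^ (-(i j)) P ^ j`
is idempotent, `∑_{i < N} ζ ^ (i j) P_i = P ^ j`; `m i = trace (P_i E)`, a natural number because `P_i E` is idempotent (its trace is its rank: `LinearMap.IsProj.trace` or `Matrix`-version used in QIR, grep `theorem QIR`). `m 0 ≥ 1`: `P_0 E ≠ 0`, because for the vector `w φ = φ 1` (invariant: `funMap α φ 1 = φ 1`) `∑_{φ, ψ} φ 1 * EE p H φ ψ * ψ 1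
= |H|⁻¹ ∑_{v reg} ‖∑_φ φ 1 * φ v‖ ^ 2 > 0` (`v = 1`), and `w P_0 = w`; an idempotent matrix with trace (rank) `0` is `0`. -/
def MLT5_stmt : Prop :=
  ∀ (p : ℕ) (M : Ideal (integralClosure ℤ ℂ)), Setup p M → ∀ (G : Type) [Group G] [Finite G]
    (H : Subgroup G) (S : Set (G → ℂ)), BC M H S → S.Nonempty → ∀ α : MulAut G, am α H = H → (∀ ψ ∈ S, funMap α ψ ∈ S) →
    ∀ N : ℕ, 0 < N → α ^ N = 1 → ∀ ζ : ℂ, IsPrimitiveRoot ζ N →
    ∃ m : ℕ → ℕ, 1 ≤ m 0 ∧ ∀ j : ℕ, tS p H S (α ^ j) = ∑ i ∈ Finset.range N, (m i : ℂ) * ζ ^ (i * j)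

/-- **FIN5** (short to medium; pure). Two families of multiplicities. Proof: for `i < N`: `N (m i - m' i) = ∑_{j < N} ζ ^ (-(i j)) (p ^ c k_j)` (orthogonality of the roots of unity), so `N (m i - m' i) / p ^ c` is a rational algebraic integer, hence an integer; `p ∤ N`: `p ^ c ∣ m i - m' i`. For `i = 0`: `1 ≤ m 0, m' 0 ≤ p ^ c`: equal. For `i ≠ 0`:
`m i ≤ p ^ c - m 0 < p ^ c`, the same for `m' i`: equal. -/
def FIN5_stmt : Prop :=
  ∀ (p c N : ℕ), p.Prime → 0 < N → ¬ p ∣ N → ∀ ζ : ℂ, IsPrimitiveRoot ζ N → ∀ m m' : ℕ → ℕ,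
    ∑ i ∈ Finset.range N, m i ≤ p ^ c → ∑ i ∈ Finset.range N, m' i ≤ p ^ c → 1 ≤ m 0 → 1 ≤ m' 0 →
    (∀ j : ℕ, ∃ k : ℤ, ∑ i ∈ Finset.range N, (m i : ℂ) * ζ ^ (i * j) - ∑ i ∈ Finset.range N, (m' i : ℂ) * ζ ^ (i * j) =
      (p : ℂ) ^ c * k) → ∀ i < N, m i = m' i

/-! ## 5. The conclusion -/

/-- **MN5E** (medium; from TG5E, DV5E, OPD, OB5, FR5E, ECN, LEL, FXA, TEI5, PRO5, EJ5, OUP5, MLT5, FIN5, FBC, EXB, BAA). The traces of `α` agree. Proof: strong induction on `|G|`. `R = O_p(G) ≤ D`, `am α R = R` (BAA), `E = Ec p (c + v) D`. If `E ≤ R`: FR5E for `H = ⊤` and `H = nz E` (FXA (6)). Otherwise `z ∈ D` with `z ^ p ^ (c + v - 1) ∉ R` (ECN (4)). PRO5: `α' = α ^ k = al α g`;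
`FxR M D θ α'` (FXA (1)), and `g ∈ T` (FXA (2)), so `tE ⊤ θ α' = tE ⊤ θ α` and `tE (nz E) θ α' = tE (nz E) θ α` (TEI5 (2); `T ≤ nz D ≤ nz E`). `N = orderOf α'`: EJ5. For every `j`: `β = α' ^ j` satisfies `FxR`, `β ^ n` inner, `orderOf β ∣ N` (EJ5 again), so TG5E (with the induction hypothesis) and DV5E (`Stb`: FXA (7)) give `tE ⊤ θ β - tE (nz E) θ β = p ^ c * k_j`.
MLT5 for `(⊤, Bl M ⊤ θ)` and `(nz E, Bl M (nz E) θ)` (BC: FBC with `Cz`-free form `BC_Bl`, nonempty: EXB; stable: FXA (5)), FIN5 (the sums of the multiplicities are `Le ⊤ θ`, `Le (nz E) θ ≤ p ^ c` by `BDH` and OB5; `j = 0`). So the traces agree (`j = 1`). -/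
def MN5E_stmt : Prop :=
  ∀ (p : ℕ) (M : Ideal (integralClosure ℤ ℂ)), Setup p M → ∀ H : HP, Her p H → ∀ c v n : ℕ, 1 ≤ c → BDH p M H (p ^ c) →
    0 < n → ¬ p ∣ n → ¬ p ^ (v + 1) ∣ Pool.Agent.MAPW.J2 n →
    ∀ (G : Type) [Group G] [Finite G] (D : Subgroup G) (x : G) (θ χ : G → ℂ), Rt p M D x θ χ → H G D (TT M D θ) →
    ∀ α : MulAut G, FxR M D θ α → (∃ y : G, α ^ n = MulAut.conj y) →
    tE p M (⊤ : Subgroup G) θ α = tE p M (nz (Ec p (c + v) D)) θ α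

/-- **DZ5** (short to medium: COPY `DSZ5`, `Pool/Agent/helper12/FI5/DSE5.lean`; from OMX, OMR, DFR5, TG5E, MN5E, BAA, ECN). The sum of Dade over all `d` and all `U` containing `a` is zero. `a = X.proj e`, `α = X.act e`, `n = orderOf a`: `e ^ n = X.inc y`, so `α ^ n = X.act (e ^ n) = conj y` (`X.act_spec`: `X.inc (X.act e g) = e * X.inc g * e⁻¹`); OUP5 for `al α g`. -/
def DZ5_stmt : Prop :=
  ∀ (p : ℕ) (M : Ideal (integralClosure ℤ ℂ)), Setup p M → ∀ H : HP, Her p H → ∀ c v : ℕ, 1 ≤ c → BDH p M H (p ^ c) →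
    ∀ (G E A : Type) [Group G] [Group E] [Group A] [Finite G] [Finite E] (X : Extension G E A), IsOp p (⊤ : Subgroup G) ⊥ →
    ∀ (D : Subgroup G) (x : G) (θ χ : G → ℂ), Rt p M D x θ χ → H G D (TT M D θ) → (∃ z ∈ D, z ^ p ^ (c + v - 1) ≠ 1) →
    ∀ a : A, ¬ p ∣ orderOf a → ¬ p ^ (v + 1) ∣ Pool.Agent.MAPW.J2 (orderOf a) → dadeSum X p M χ a = 0

/-- **DH5** (short: COPY `DHZ2`, `Pool/Agent/helper83/FI4B/DHZ2.lean`; from A13 of DI, HNG). Only one defect if the heights are zero under `H`. -/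
def DH5_stmt : Prop :=
  ∀ (p : ℕ) (M : Ideal (integralClosure ℤ ℂ)), Setup p M → ∀ H : HP, Her p H → HTH p M H → ∀ (G E A : Type) [Group G] [Group E] [Group A]
    [Finite G] [Finite E] (X : Extension G E A) (D : Subgroup G) (x : G)
    (θ χ : G → ℂ), Rt p M D x θ χ → H G D (TT M D θ) → ∀ a : ℕ, Nat.card D = p ^ a → ∀ d : ℤ, d ≠ a →
    ∀ U : Subgroup A, altSum X p M χ d U = 0

/-- **DC5** (short to medium: COPY `DSE5`, `DSC5`, `Pool/Agent/helper12/FI5/DSE5.lean`; from DZ5, DH5, ZRO, DWN, EJ5). `E_B / E[B]` cyclic, generated by `s` of order prime to `p`: all `U`. (1) DWN for `a U = ∑ᶠ d, altSum X p M χ d U`; for `AI ≤ V ≤ AB` `V = zpowers (s ^ j) ⊔ AI` (proof of `DSC_gen`, which gives a power of `s`), `orderOf (s ^ j) ∣ orderOf s`, EJ5, DZ5 (exchange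
the finite sums over `d` and `U`; only finitely many `d` matter, as in `FSG_fin`). (2) if `HTH`: only one `d` occurs (DH5), so `altSum X p M χ d U` is the sum over all `d`. -/
def DC5_stmt : Prop :=
  ∀ (p : ℕ) (M : Ideal (integralClosure ℤ ℂ)), Setup p M → ∀ H : HP, Her p H → ∀ c v : ℕ, 1 ≤ c → BDH p M H (p ^ c) →
    ∀ (G E A : Type) [Group G] [Group E] [Group A] [Finite G] [Finite E] (X : Extension G E A), IsOp p (⊤ : Subgroup G) ⊥ →
    ∀ (D : Subgroup G) (x : G) (θ χ : G → ℂ), Rt p M D x θ χ → H G D (TT M D θ) → (∃ z ∈ D, z ^ p ^ (c + v - 1) ≠ 1) →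
    ∀ s : A, ¬ p ∣ orderOf s → ¬ p ^ (v + 1) ∣ Pool.Agent.MAPW.J2 (orderOf s) →
    (∀ a ∈ Pool.Agent.BQ.AB X M χ, ∃ k : ℤ, s ^ k * a ∈ Pool.Agent.BQ.AI X M χ) →
    (∀ U : Subgroup A, ∑ᶠ d : ℤ, altSum X p M χ d U = 0) ∧
    (HTH p M H → ∀ (d : ℤ) (U : Subgroup A), altSum X p M χ d U = 0)

end Pool.Agent.L5
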