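import Pool.Agent.helper58.LE.AllG
import Pool.Agent.helper58.LE.AllD
import Pool.Agent.helper37.L5.Spec
import Pool.Agent.helper60.L5.NZV
import Pool.Agent.helper41.L5.CNV
import Pool.Agent.helper43.L5.KDG5
import Pool.Agent.helper84.L5.DV5
import Pool.Agent.helper84.L5.ECN
import Pool.Agent.helper84.L5.OB5
import Pool.Agent.helper84.L5.FD5
import Pool.Agent.helper28.L5.LEL
import Pool.Agent.helper92.L5.LEI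
import Pool.Agent.helper9.L5.TRE
import Pool.Agent.helper22.L5.DCT5
import Pool.Agent.helper3.L5.ACJ5
import Pool.Agent.helper34.L5.LOC5
import Pool.Agent.helper40.L5.IHN5
import Pool.Agent.helper23.L5.FTG5
import Pool.Agent.helper26.L5.TOG5
import Pool.Agent.helper2.L5.TG5
import Pool.Agent.helper38.L5.FRA5
import Pool.Agent.helper90.L5.FRB5
import Pool.Agent.helper61.L5.FRC5
import Pool.Agent.helper26.L5.FRD5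
import Pool.Agent.helper80.L5.FRE5
import Pool.Agent.helper24.L5.FR5
import Pool.Agent.helper91.L5.MN5
import Pool.Agent.helper39.L5.FS5

/-!
# MP_baa4d7_al, project L5: assembly of the 25 rows of `Spec` (no hypotheses left)

OUTPUT: `aDV5 : DV5_stmt`, `aMN5 : MN5_stmt`, `aFS5 : FS5_stmt`, `aFD5 : FD5_stmt`.
-/

set_option autoImplicit false

namespace Pool.Agent.L5.All

open Pool.Agent Pool.Agent.FI Pool.Agent.FI3 Pool.Agent.FI4 Pool.Agent.FI4I Pool.Agent.FI4E Pool.Agent.LE Pool.Agent.GR Pool.Agent.helper58.DC Pool.Agent.DI Pool.Agent.OB Pool.Agent.L5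

theorem aNZV : NZV_stmt := L5.NZV Pool.Agent.FI3.AllH3.hHTU Pool.Agent.FI3.AllH3.hTRW AllQ2.dQID Pool.Agent.FI.AllR.rRR1 AllA.dTPR
theorem aCNV : CNV_stmt := L5.CNV GR.All.dBR2 AllA.dCNTL AllA.dSYL AllA.dTPR GR.All.dB2 AllA.dSTC
theorem aKDG5 : KDG5_stmt := L5.KDG5 aNZV aCNV AllA.dDEX AllA.dCLS AllA.dTPR Pool.Agent.OB.All.uDG2 AllK.kKUP AllK.kKBL AllK.kKIN AllK.kKG1
  Pool.Agent.DR.All.rCFA AllC.cFOV AllB.dCON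
theorem aDV5 : DV5_stmt := L5.DV5 aKDG5 Pool.Agent.LE.AllG.gDVKdv AllK.kKG1 AllK.kKCH AllK.kKLE AllK.kKIN AllK.kKBL AllK.kKUN GR.All.dBCL GR.All.dIM AllK.kLBN
theorem aECN : ECN_stmt := L5.ECN
theorem aLEL : LEL_stmt := L5.LEL AllA.dTPR
theorem aLEI : LEI_stmt := L5.LEI AllC.cFEQ Pool.Agent.FI.AllQ.qQCJ
theorem aTRE : TRE_stmt := L5.TRE Pool.Agent.FI4I.AllI.iTR1 Pool.Agent.FI4I.AllI.iTR2 Pool.Agent.FI4I.AllI.iTR4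
theorem aOB5 : OB5_stmt := L5.OB5 Pool.Agent.FI4I.AllI.iRTN Pool.Agent.LE.AllG.gHRN AllA.dEXB aTRE aECN aLEL
theorem aDCT5 : DCT5_stmt := L5.DCT5
theorem aACJ5 : ACJ5_stmt := L5.ACJ5 AllP4.pLOA Pool.Agent.FI4I.AllI.iBKN Pool.Agent.FI4I.AllI.iBKV AllC.cFSI AllC.cFEQ AllA.dCJG Pool.Agent.FI4I.AllI.iRTN
  Pool.Agent.FI4I.AllI.iTR1 Pool.Agent.FI4I.AllI.iTR2 Pool.Agent.FI4I.AllI.iTR3 AllA.dTPR Pool.Agent.FI4I.AllI.iCJR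
theorem aLOC5 : LOC5_stmt := L5.LOC5 aACJ5 aDCT5 AllC.cFSI AllC.cFEQ Pool.Agent.FI4I.AllI.iBKV GR.All.dB2
theorem aIHN5 : IHN5_stmt := L5.IHN5 Pool.Agent.FI4I.AllI.iRTN Pool.Agent.LE.AllG.gHRN Pool.Agent.LE.AllG.gHRC Pool.Agent.FI4I.AllI.iBKV AllA.dEXB aTRE
  Pool.Agent.FI4I.AllI.iTR3 aECN AllC.cFEQ AllC.cFSI
theorem aFTG5 : FTG5_stmt := L5.FTG5
theorem aTOG5 : TOG5_stmt := L5.TOG5 aFTG5 aLEI aECN AllC.cFEQ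
theorem aTG5 : TG5_stmt := L5.TG5 aTOG5 aLOC5 aIHN5 Pool.Agent.FI3F.AllF.cFMX3 aLEL
theorem aFRA5 : FRA5_stmt := L5.FRA5 AllP4.pLOA Pool.Agent.FI4.AllP4.pFRA4 AllA.dCJG GR.All.dIDM Pool.Agent.FI3.AllH3.hEPR GR.All.dB2
theorem aFRB5 : FRB5_stmt := L5.FRB5 Pool.Agent.DR.All.rCFA Pool.Agent.DR.All.rCCJ Pool.Agent.FI3F.AllF.cFOV3 AllP4.pLOA Pool.Agent.FI4I.AllI.iRTN AllC.cFEQ AllC.cFSI
  AllA.dCJG Pool.Agent.FI4I.AllI.iTR1 Pool.Agent.FI4I.AllI.iTR2 Pool.Agent.FI4I.AllI.iTR3 AllA.dTPR GR.All.dB2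
theorem aFRC5 : FRC5_stmt := L5.FRC5 GR.All.dIDM GR.All.dCCI GR.All.dCVF Pool.Agent.FI.AllR.rEVM Pool.Agent.FI.AllQ.qQRS GR.All.dB2
theorem aFRD5 : FRD5_stmt := L5.FRD5 aFRC5 Pool.Agent.FI.AllQ.qQRS GR.All.dB2
theorem aFRE5 : FRE5_stmt := L5.FRE5 Pool.Agent.DR.All.rCRE GR.All.dB2
theorem aFR5 : FR5_stmt := L5.FR5 aFRA5 aFRB5 aFRD5 aFRE5 Pool.Agent.FI.AllQ.qQRS Pool.Agent.FI.AllR.rEVM GR.All.dIDM GR.All.dCCI Pool.Agent.FI.AllQ.qQEI AllC.cFBC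
  GR.All.dB2
theorem aMN5 : MN5_stmt := L5.MN5 aTG5 aDV5 AllK.kOPD aOB5 aFR5 aECN aLEL
theorem aFS5 : FS5_stmt := L5.FS5 aMN5 aTG5 aECN GR.All.dB2 AllC.cFT0 AllK.kKRG
theorem aFD5 : FD5_stmt := L5.FD5 aMN5 aTG5 aECN AllC.cFT0 Pool.Agent.LE.AllG.gHNG AllK.kKRG

end Pool.Agent.L5.All
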