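import Pool.Agent.helper37.L5.All
import Pool.Agent.helper37.L5.SpecE
import Pool.Agent.helper58.FI4E.AllE
import Pool.Agent.helper70.FI4E.AllE3
import Pool.Agent.helper24.L5.FXA
import Pool.Agent.helper28.L5.DFR5
import Pool.Agent.helper71.L5.TRE5
import Pool.Agent.helper57.L5.TEI5
import Pool.Agent.helper96.L5.OUP5
import Pool.Agent.helper43.L5.EJ5
import Pool.Agent.helper51.L5.PRO5
import Pool.Agent.helper3.L5.LBE5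
import Pool.Agent.helper16.L5.LOE5
import Pool.Agent.helper6.L5.LCG5
import Pool.Agent.helper34.L5.IHE5
import Pool.Agent.helper18.L5.TGP5
import Pool.Agent.helper32.L5.CTG5
import Pool.Agent.helper91.L5.TOE5
import Pool.Agent.helper75.L5.TG5E
import Pool.Agent.helper88.L5.FR5E
import Pool.Agent.helper88.L5.MLT5
import Pool.Agent.helper88.L5.FIN5
import Pool.Agent.helper30.L5.EDV5
import Pool.Agent.helper97.L5.DV5E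
import Pool.Agent.helper58.L5.MN5E
import Pool.Agent.helper55.L5.DZ5
import Pool.Agent.helper49.L5.DH5
import Pool.Agent.helper55.L5.DC5

/-!
# MP_baa4d7_al, project L5: assembly of the 24 rows of `SpecE` (no hypotheses left)

OUTPUT: `aDC5 : DC5_stmt`.
-/

set_option autoImplicit false

namespace Pool.Agent.L5.AllE5

open Pool.Agent Pool.Agent.FI Pool.Agent.FI3 Pool.Agent.FI4 Pool.Agent.FI4I Pool.Agent.FI4E Pool.Agent.LE Pool.Agent.GR Pool.Agent.helper58.DC Pool.Agent.DI Pool.Agent.OB Pool.Agent.L5 Pool.Agent.L5.All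

theorem aFXA : FXA_stmt := L5.FXA Pool.Agent.FI4E.AllE.eBAA AllC.cFEQ AllC.cFSI GR.All.dIM
theorem aDFR5 : DFR5_stmt := L5.DFR5 Pool.Agent.FI4E.AllE.eDFA AllB.dCON Pool.Agent.FI4E.AllE.eBAA AllC.cFEQ AllC.cFSI GR.All.dIM
theorem aTRE5 : TRE5_stmt := L5.TRE5 Pool.Agent.FI4I.AllI.iTR1 Pool.Agent.FI4I.AllI.iTR2 Pool.Agent.FI4I.AllI.iTR4 Pool.Agent.FI4E.AllE.eTRA
theorem aTEI5 : TEI5_stmt := L5.TEI5 Pool.Agent.FI4E.AllE.eTSI Pool.Agent.FI4E.AllE.eTSJ AllC.cFEQ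
theorem aOUP5 : OUP5_stmt := L5.OUP5
theorem aEJ5 : EJ5_stmt := L5.EJ5
theorem aPRO5 : PRO5_stmt := L5.PRO5
theorem aLBE5 : LBE5_stmt := L5.LBE5 aACJ5 aDCT5 Pool.Agent.FI4E.AllE.eBAA AllC.cFEQ AllC.cFSI Pool.Agent.FI4I.AllI.iBKV
theorem aLOE5 : LOE5_stmt := L5.LOE5 aLBE5 Pool.Agent.FI4E.AllE.eTSI Pool.Agent.FI4E.AllE.eUNS AllC.cFSI AllC.cFEQ Pool.Agent.FI4E.AllE.eBAA
  Pool.Agent.FI4I.AllI.iBKV GR.All.dB2 Pool.Agent.FI.AllQ.qQEI Pool.Agent.FI.AllA.dBLE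
theorem aLCG5 : LCG5_stmt := L5.LCG5 aLOE5 Pool.Agent.FI4E.AllE.eTSI Pool.Agent.FI4E.AllE.eBAA AllC.cFEQ
theorem aIHE5 : IHE5_stmt := L5.IHE5 Pool.Agent.FI4I.AllI.iRTN Pool.Agent.LE.AllG.gHRN Pool.Agent.LE.AllG.gHRC Pool.Agent.FI4I.AllI.iBKV AllA.dEXB aTRE5
  Pool.Agent.FI4E.AllE.eTRA Pool.Agent.FI4I.AllI.iTR2 Pool.Agent.FI4I.AllI.iTR3 aECN AllC.cFEQ AllC.cFSI aOUP5
theorem aTGP5 : TGP5_stmt := L5.TGP5
theorem aCTG5 : CTG5_stmt := L5.CTG5 aFXA aTEI5 aECN AllC.cFEQ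
theorem aTOE5 : TOE5_stmt := L5.TOE5 aTGP5 aCTG5 aFXA aECN Pool.Agent.FI4E.AllE.eBAA AllC.cFEQ
theorem aTG5E : TG5E_stmt := L5.TG5E aTOE5 aLCG5 aIHE5 Pool.Agent.FI3F.AllF.cFMX3 aTEI5 aOUP5 Pool.Agent.FI4E.AllE.eBAA aLEL
theorem aFR5E : FR5E_stmt := L5.FR5E aFRA5 aFRB5 aFRD5 aFRE5 aFXA Pool.Agent.FI4E.AllE.eBAA Pool.Agent.FI.AllQ.qQRS Pool.Agent.FI.AllR.rEVM GR.All.dIDM GR.All.dCCI
  Pool.Agent.FI.AllQ.qQEI AllC.cFBC GR.All.dB2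
theorem aMLT5 : MLT5_stmt := L5.MLT5 Pool.Agent.FI.AllQ.qQEI Pool.Agent.FI4E.AllE.eBAA GR.All.dB2 Pool.Agent.FI.AllR.rCHC
theorem aFIN5 : FIN5_stmt := L5.FIN5
theorem aEDV5 : EDV5_stmt := L5.EDV5 Pool.Agent.FI4E.AllE.eOMX
theorem aDV5E : DV5E_stmt := L5.DV5E Pool.Agent.FI4E.AllE3.eEOQ (Pool.Agent.FI4E.AllE3.eEUN Pool.Agent.FI4E.AllE.eUNS) aEDV5 Pool.Agent.FI4E.AllE3.eEQA
  Pool.Agent.FI4E.AllE3.eEAU aKDG5 AllK.kKG1 AllK.kKBL GR.All.dIM aEJ5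
theorem aMN5E : MN5E_stmt := L5.MN5E aTG5E aDV5E AllK.kOPD aOB5 aFR5E aECN aLEL aFXA aTEI5 aPRO5 aEJ5 aOUP5 aMLT5 aFIN5 AllC.cFBC AllA.dEXB Pool.Agent.FI4E.AllE.eBAA
theorem aDZ5 : DZ5_stmt := L5.DZ5 Pool.Agent.FI4E.AllE.eOMX Pool.Agent.FI4E.AllE.eOMR aDFR5 aTG5E aMN5E Pool.Agent.FI4E.AllE.eBAA aECN aOUP5
theorem aDH5 : DH5_stmt := L5.DH5 Pool.Agent.DR.AllDI.iA13 Pool.Agent.LE.AllG.gHNG
theorem aDC5 : DC5_stmt := L5.DC5 aDZ5 aDH5 Pool.Agent.BQ.All.qZRO Pool.Agent.BQ.DWN aEJ5 GR.All.dB2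

end Pool.Agent.L5.AllE5
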